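import Mathlib

/-!
# Palindromic width depends on the finite generating set

The free group on `a`, `b` has palindromic width at most three with respect to `{a, b, a * b}` and
infinite palindromic width with respect to `{a, b}`.
-/

namespace Pool.Agent.Results.MP_8bc403_al.GenDepend

open scoped commutatorElement

section defs
variable {G : Type} [Group G]

/-- The element of the group represented by a word in the alphabet `X^{±1}`: the letter `(s, true)`
stands for `s` and the letter `(s, false)` for its inverse. -/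
def wordValue (X : Set G) (w : List (X × Bool)) : G :=
  (w.map fun a => cond a.2 (a.1 : G) (a.1 : G)⁻¹).prod

/-- An element of the group is a palindrome with respect to `X` if it is represented by a reduced
word in the alphabet `X^{±1}` that coincides with its own reversal. -/
def IsPalindrome (X : Set G) (g : G) : Prop :=
  ∃ w : List (X × Bool), FreeGroup.IsReduced w ∧ w.reverse = w ∧ wordValue X w = g

/-- The palindromic length: the least number of factors in an expression of `g` as a product of
palindromes (infinite if there is none). -/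
noncomputable def palLength (X : Set G) (g : G) : ℕ∞ :=
  ⨅ (l : List G) (_ : (∀ p ∈ l, IsPalindrome X p) ∧ l.prod = g), (l.length : ℕ∞)

/-- The palindromic width: the supremum of the palindromic lengths. -/
noncomputable def palWidth (X : Set G) : ℕ∞ := ⨆ g : G, palLength X g

end defs

section general
variable {ι : Type}

/-- the automorphism of the free group inverting every free generator -/
def invAut (ι : Type) : FreeGroup ι →* FreeGroup ι := FreeGroup.lift fun i => (FreeGroup.of i)⁻¹

lemma invAut_invol (g : FreeGroup ι) : invAut ι (invAut ι g) = g := by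
  have : (invAut ι).comp (invAut ι) = MonoidHom.id _ := by
    ext i; simp [invAut]
  exact DFunLike.congr_fun this g

lemma invAut_mk (w : List (ι × Bool)) :
    invAut ι (FreeGroup.mk w) = FreeGroup.mk (w.map fun a => (a.1, !a.2)) := by
  induction w with
  | nil => rfl
  | cons a w ih =>
    have h1 : FreeGroup.mk (a :: w) = FreeGroup.mk [a] * FreeGroup.mk w := by
      rw [FreeGroup.mul_mk]; rfl
    rw [h1, map_mul, ih, List.map_cons, ← List.singleton_append, ← FreeGroup.mul_mk]
    obtain ⟨i, b⟩ := a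
    cases b
    · simp [invAut, FreeGroup.of]
    · simp [invAut, FreeGroup.of, FreeGroup.invRev]

lemma toWord_palindrome [DecidableEq ι] {p : FreeGroup ι} (hp : invAut ι p = p⁻¹) :
    p.toWord.reverse = p.toWord := by
  set w := p.toWord with hw
  have hred : FreeGroup.IsReduced w := FreeGroup.isReduced_toWord
  have hp' : FreeGroup.mk w = p := FreeGroup.mk_toWord
  have h1 : FreeGroup.mk (w.map fun a => (a.1, !a.2)) = FreeGroup.mk (FreeGroup.invRev w) := by
    rw [← invAut_mk, hp', hp, ← hp', FreeGroup.inv_mk]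
  have hinj : Function.Injective (fun a : ι × Bool => (a.1, !a.2)) := by
    rintro ⟨i, b⟩ ⟨j, c⟩ h
    simp only [Prod.mk.injEq, Bool.not_inj_iff] at h
    rw [h.1, h.2]
  have hred1 : FreeGroup.IsReduced (w.map fun a => (a.1, !a.2)) := by
    unfold FreeGroup.IsReduced at hred ⊢
    rw [List.isChain_map]
    refine hred.imp ?_
    intro a b hab h
    simp only at h ⊢
    rw [hab h]
  have hred2 : FreeGroup.IsReduced (FreeGroup.invRev w) := by
    unfold FreeGroup.IsReduced at hred1 ⊢
    rw [FreeGroup.invRev, List.isChain_reverse]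
    refine hred1.imp ?_
    intro a b hab h
    exact (hab h.symm).symm
  have h2 := congrArg FreeGroup.toWord h1
  rw [FreeGroup.toWord_mk, FreeGroup.toWord_mk, hred1.reduce_eq, hred2.reduce_eq, FreeGroup.invRev,
    ← List.map_reverse] at h2
  exact (List.map_injective_iff.2 hinj h2).symm

variable {G : Type} [Group G]

/-- the natural map from the free group on the set `X` -/
def val (X : Set G) : FreeGroup X →* G := FreeGroup.lift fun s => (s : G)

lemma wordValue_eq (X : Set G) (w : List (X × Bool)) : wordValue X w = val X (FreeGroup.mk w) := by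
  induction w with
  | nil => simp [wordValue, val]
  | cons a w ih =>
    have h1 : FreeGroup.mk (a :: w) = FreeGroup.mk [a] * FreeGroup.mk w := by
      rw [FreeGroup.mul_mk]; rfl
    have h2 : wordValue X (a :: w) = cond a.2 (a.1 : G) (a.1 : G)⁻¹ * wordValue X w := by
      simp [wordValue]
    rw [h1, h2, ih, map_mul]
    congr 1
    obtain ⟨i, b⟩ := a
    cases b <;> simp [val]

lemma isPalindrome_of {X : Set G} {p : FreeGroup X} (hp : invAut X p = p⁻¹) :
    IsPalindrome X (val X p) := by
  classical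
  refine ⟨p.toWord, FreeGroup.isReduced_toWord, toWord_palindrome hp, ?_⟩
  rw [wordValue_eq, FreeGroup.mk_toWord]

lemma isPalindrome_zpow {X : Set G} {s : G} (hs : s ∈ X) (k : ℤ) : IsPalindrome X (s ^ k) := by
  have h := isPalindrome_of (X := X) (p := (FreeGroup.of ⟨s, hs⟩) ^ k) (by simp [invAut])
  simpa [val] using h

/-- reversed relators are palindromes -/
lemma isPalindrome_rel {X : Set G} {r : FreeGroup X} (hr : val X r = 1) :
    IsPalindrome X (val X (invAut X r)) := by
  have h := isPalindrome_of (X := X) (p := invAut X r⁻¹ * r) (by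
    rw [map_mul, invAut_invol]; simp)
  have h2 := isPalindrome_of (X := X) (p := (invAut X r⁻¹ * r)⁻¹) (by
    rw [map_inv, map_mul, invAut_invol]; simp)
  simpa [hr] using h2

/-- the image of the reversed relators -/
def relSub (X : Set G) : Subgroup G := ((val X).ker.map (invAut X)).map (val X)

lemma mem_relSub {X : Set G} {g : G} (hg : g ∈ relSub X) : IsPalindrome X g := by
  obtain ⟨_, ⟨r, hr, rfl⟩, rfl⟩ := hg
  exact isPalindrome_rel hr

lemma val_surj {X : Set G} (hX : Subgroup.closure X = ⊤) : Function.Surjective (val X) := by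
  rw [← MonoidHom.range_eq_top, val, FreeGroup.range_lift_eq_closure, ← hX]
  simp

lemma invAut_surj : Function.Surjective (invAut ι) := fun g => ⟨invAut ι g, invAut_invol g⟩

lemma relSub_normal {X : Set G} (hX : Subgroup.closure X = ⊤) : (relSub X).Normal := by
  have h1 : ((val X).ker.map (invAut X)).Normal := Subgroup.Normal.map inferInstance _ invAut_surj
  exact Subgroup.Normal.map h1 _ (val_surj hX)

end general

section upper

/-- the free group of rank two -/
abbrev F2 := FreeGroup (Fin 2)

abbrev a : F2 := FreeGroup.of 0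
abbrev b : F2 := FreeGroup.of 1

lemma closure_ab : Subgroup.closure ({a, b} : Set F2) = ⊤ := by
  rw [← FreeGroup.closure_range_of (α := Fin 2)]
  congr 1
  ext x
  constructor
  · rintro (rfl | rfl)
    · exact ⟨0, rfl⟩
    · exact ⟨1, rfl⟩
  · rintro ⟨i, rfl⟩
    fin_cases i
    · exact Or.inl rfl
    · exact Or.inr rfl

lemma closure_abc : Subgroup.closure ({a, b, a * b} : Set F2) = ⊤ := by
  rw [eq_top_iff, ← closure_ab]
  apply Subgroup.closure_mono
  rintro x (rfl | rfl)
  · exact Or.inl rfl
  · exact Or.inr (Or.inl rfl)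

lemma comm_mem : ⁅a, b⁆ ∈ relSub ({a, b, a * b} : Set F2) := by
  set X : Set F2 := {a, b, a * b} with hX
  have ha : a ∈ X := Or.inl rfl
  have hb : b ∈ X := Or.inr (Or.inl rfl)
  have hc : a * b ∈ X := Or.inr (Or.inr rfl)
  refine ⟨_, ⟨(FreeGroup.of ⟨a * b, hc⟩)⁻¹ * FreeGroup.of ⟨a, ha⟩ * FreeGroup.of ⟨b, hb⟩, ?_, rfl⟩, ?_⟩
  · simp [val, mul_assoc]
  · simp only [invAut, val, map_mul, map_inv, FreeGroup.lift_apply_of, inv_inv, commutatorElement_def]

lemma exists_form (g : F2) : ∃ i j : ℤ, (a ^ i * b ^ j)⁻¹ * g ∈ relSub ({a, b, a * b} : Set F2) := by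
  set M := relSub ({a, b, a * b} : Set F2) with hM
  have : M.Normal := relSub_normal closure_abc
  have hcomm : Commute (QuotientGroup.mk' M a) (QuotientGroup.mk' M b) := by
    rw [← commutatorElement_eq_one_iff_commute, ← map_commutatorElement]
    exact (QuotientGroup.eq_one_iff _).2 comm_mem
  have h : ∀ g ∈ Subgroup.closure ({a, b} : Set F2), ∃ i j : ℤ,
      (QuotientGroup.mk' M a) ^ i * (QuotientGroup.mk' M b) ^ j = QuotientGroup.mk' M g := by
    intro g hg
    induction hg using Subgroup.closure_induction with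
    | mem x hx =>
      rcases hx with rfl | rfl
      · exact ⟨1, 0, by simp⟩
      · exact ⟨0, 1, by simp⟩
    | one => exact ⟨0, 0, by simp⟩
    | mul x y _ _ hx hy =>
      obtain ⟨i, j, h1⟩ := hx
      obtain ⟨k, l, h2⟩ := hy
      refine ⟨i + k, j + l, ?_⟩
      rw [map_mul, ← h1, ← h2, zpow_add, zpow_add]
      have h3 : QuotientGroup.mk' M a ^ k * QuotientGroup.mk' M b ^ j =
        QuotientGroup.mk' M b ^ j * QuotientGroup.mk' M a ^ k := (hcomm.zpow_zpow k j).eq
      rw [mul_assoc, ← mul_assoc (_ ^ k), h3]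
      group
    | inv x _ hx =>
      obtain ⟨i, j, h1⟩ := hx
      refine ⟨-i, -j, ?_⟩
      rw [map_inv, ← h1, mul_inv_rev, zpow_neg, zpow_neg]
      exact ((hcomm.zpow_zpow i j).inv_inv).eq
  obtain ⟨i, j, h1⟩ := h g (by rw [closure_ab]; trivial)
  refine ⟨i, j, ?_⟩
  rw [← map_zpow, ← map_zpow, ← map_mul] at h1
  exact QuotientGroup.eq.1 h1

lemma upper : palWidth ({a, b, a * b} : Set F2) ≤ 3 := by
  refine iSup_le ?_
  intro g
  obtain ⟨i, j, h⟩ := exists_form g
  have hl : (∀ p ∈ [a ^ i, b ^ j, (a ^ i * b ^ j)⁻¹ * g], IsPalindrome ({a, b, a * b} : Set F2) p) ∧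
      [a ^ i, b ^ j, (a ^ i * b ^ j)⁻¹ * g].prod = g := by
    refine ⟨?_, ?_⟩
    · intro p hp
      simp only [List.mem_cons, List.not_mem_nil, or_false] at hp
      rcases hp with rfl | rfl | rfl
      · exact isPalindrome_zpow (X := ({a, b, a * b} : Set F2)) (Or.inl rfl) i
      · exact isPalindrome_zpow (X := ({a, b, a * b} : Set F2)) (Or.inr (Or.inl rfl)) j
      · exact mem_relSub h
    · simp [mul_assoc]
  exact iInf_le_of_le _ (iInf_le _ hl)

end upper

section lower

/-- a piecewise linear function on the unit interval -/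
noncomputable def gg (t : ℝ) : ℝ := if t < 1 / 4 then 1 / 4 + 3 * t else 11 / 12 + t / 3

/-- a half turn of the circle, lifted to the line -/
noncomputable def TT (x : ℝ) : ℝ := ⌊x⌋ + gg (Int.fract x)

lemma TT_eq (n : ℤ) (t : ℝ) (h0 : 0 ≤ t) (h1 : t < 1) : TT (n + t) = n + gg t := by
  have h2 : ⌊(n : ℝ) + t⌋ = n := by
    rw [Int.floor_intCast_add, Int.floor_eq_zero_iff.2 ⟨h0, h1⟩, add_zero]
  rw [TT, h2, Int.fract, h2]
  ring_nf

lemma split (x : ℝ) : ∃ (n : ℤ) (t : ℝ), 0 ≤ t ∧ t < 1 ∧ x = n + t :=
  ⟨⌊x⌋, Int.fract x, Int.fract_nonneg x, Int.fract_lt_one x, (Int.floor_add_fract x).symm⟩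

lemma TT_TT (x : ℝ) : TT (TT x) = x + 1 := by
  obtain ⟨n, t, h0, h1, rfl⟩ := split x
  rw [TT_eq n t h0 h1]
  by_cases h : t < 1 / 4
  · rw [gg, if_pos h, TT_eq n _ (by linarith) (by linarith), gg, if_neg (by linarith)]
    ring
  · rw [gg, if_neg h]
    have e : (n : ℝ) + (11 / 12 + t / 3) = ((n + 1 : ℤ) : ℝ) + (t / 3 - 1 / 12) := by
      push_cast; ring
    rw [e, TT_eq (n + 1) _ (by linarith) (by linarith), gg, if_pos (by linarith)]
    push_cast; ring

lemma gg_mono {s t : ℝ} (h : s < t) : gg s < gg t := by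
  unfold gg
  split_ifs <;> linarith

lemma gg_bounds {t : ℝ} (h0 : 0 ≤ t) (h1 : t < 1) : 1 / 4 ≤ gg t ∧ gg t < 5 / 4 := by
  unfold gg
  split_ifs <;> constructor <;> linarith

lemma TT_mono : StrictMono TT := by
  intro x y hxy
  obtain ⟨n, t, h0, h1, rfl⟩ := split x
  obtain ⟨m, s, h2, h3, rfl⟩ := split y
  rw [TT_eq n t h0 h1, TT_eq m s h2 h3]
  rcases lt_trichotomy n m with h | h | h
  · have h' : (n : ℝ) + 1 ≤ m := by exact_mod_cast h
    have := gg_bounds h0 h1
    have := gg_bounds h2 h3
    linarith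
  · subst h
    have := gg_mono (s := t) (t := s) (by linarith)
    linarith
  · have h' : (m : ℝ) + 1 ≤ n := by exact_mod_cast h
    linarith

/-- a strictly monotone square root of the unit translation as an order automorphism -/
noncomputable def mkT (T : ℝ → ℝ) (hm : StrictMono T) (h : ∀ x, T (T x) = x + 1) : ℝ ≃o ℝ :=
  hm.orderIsoOfRightInverse T (fun x => T (x - 1)) (fun x => by rw [h]; ring)

lemma mkT_apply (T : ℝ → ℝ) (hm : StrictMono T) (h : ∀ x, T (T x) = x + 1) (x : ℝ) :
    mkT T hm h x = T x := rfl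

/-- the unit translation -/
noncomputable def z : ℝ ≃o ℝ := OrderIso.addRight 1

lemma z_apply (x : ℝ) : z x = x + 1 := rfl

noncomputable def T0 : ℝ ≃o ℝ := mkT (fun x => x + 1 / 2) (fun x y h => by simpa using h)
  (fun x => by ring)

noncomputable def T2 : ℝ ≃o ℝ := mkT TT TT_mono TT_TT

noncomputable def T1 : ℝ ≃o ℝ := mkT (fun x => TT (x - 1 / 4) + 1 / 4)
  (fun x y h => by
    have := TT_mono (show x - 1 / 4 < y - 1 / 4 by linarith)
    simp only; linarith)
  (fun x => by rw [add_sub_cancel_right, TT_TT]; ring)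

lemma sq_of {T : ℝ ≃o ℝ} (h : ∀ x, T (T x) = x + 1) : T * T = z := by
  ext x; exact h x

lemma T0_sq : T0 * T0 = z := sq_of fun x => by simp only [T0, mkT_apply]; ring
lemma T1_sq : T1 * T1 = z := sq_of fun x => by
  simp only [T1, mkT_apply]; rw [add_sub_cancel_right, TT_TT]; ring
lemma T2_sq : T2 * T2 = z := sq_of fun x => by simp only [T2, mkT_apply]; rw [TT_TT]

/-- the half turn attached to each generator -/
noncomputable def Tk : Fin 2 → (ℝ ≃o ℝ) := ![T1, T2]

lemma Tk_sq (i : Fin 2) : Tk i * Tk i = z := by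
  fin_cases i
  · exact T1_sq
  · exact T2_sq

/-- the action of the free group on the line -/
noncomputable def act : F2 →* (ℝ ≃o ℝ) := FreeGroup.lift fun i => T0⁻¹ * Tk i

/-- an automorphism whose square is the unit translation moves every point by less than one -/
lemma move {R : ℝ ≃o ℝ} (h : R * R = z) (x : ℝ) : x < R x ∧ R x < x + 1 := by
  have h1 : ∀ x, R (R x) = x + 1 := fun x => by
    have := DFunLike.congr_fun h x
    exact this
  constructor
  · by_contra hc
    push Not at hc
    have := R.monotone hc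
    rw [h1] at this
    linarith
  · by_contra hc
    push Not at hc
    have := R.monotone hc
    have h3 : R (x + 1) = R x + 1 := by rw [← h1 x, h1 (R x)]
    rw [h1, h3] at this
    linarith

lemma act_comm (g : F2) : act g * z = z * act g := by
  have h : (MulAut.conj z).toMonoidHom.comp act = act := by
    ext1 i
    simp only [MonoidHom.comp_apply, MulEquiv.coe_toMonoidHom, MulAut.conj_apply, act,
      FreeGroup.lift_apply_of]
    have h1 : z * T0⁻¹ = T0⁻¹ * z := by rw [← T0_sq]; group
    have h2 : z * Tk i = Tk i * z := by rw [← Tk_sq i]; group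
    rw [← mul_assoc, h1, mul_assoc T0⁻¹, h2]; group
  have h2 := DFunLike.congr_fun h g
  simp only [MonoidHom.comp_apply, MulEquiv.coe_toMonoidHom, MulAut.conj_apply] at h2
  rw [mul_inv_eq_iff_eq_mul] at h2
  exact h2.symm

lemma T0_flip {g : F2} (hg : g = a ∨ g = b) : T0 * act g = (act g)⁻¹ * T0 := by
  have key : ∀ i, T0 * act (FreeGroup.of i) = (act (FreeGroup.of i))⁻¹ * T0 := by
    intro i
    simp only [act, FreeGroup.lift_apply_of, mul_inv_rev, inv_inv, mul_inv_cancel_left]
    rw [mul_assoc, T0_sq, ← Tk_sq i, inv_mul_cancel_left]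
  rcases hg with rfl | rfl
  · exact key 0
  · exact key 1

lemma letter_flip (x : (({a, b} : Set F2)) × Bool) :
    T0 * act (cond x.2 (x.1 : F2) (x.1 : F2)⁻¹) = (act (cond x.2 (x.1 : F2) (x.1 : F2)⁻¹))⁻¹ * T0 := by
  obtain ⟨⟨g, hg⟩, e⟩ := x
  have h := T0_flip hg
  cases e
  · simp only [cond_false, map_inv, inv_inv]
    calc T0 * (act g)⁻¹ = act g * ((act g)⁻¹ * T0) * (act g)⁻¹ := by group
      _ = act g * (T0 * act g) * (act g)⁻¹ := by rw [h]
      _ = act g * T0 := by group
  · exact h

lemma pal_sq (w : List ((({a, b} : Set F2)) × Bool)) (hw : w.reverse = w) :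
    (T0 * act (wordValue _ w)) * (T0 * act (wordValue _ w)) = z := by
  have hp := List.Palindrome.of_reverse_eq hw
  clear hw
  have conj : ∀ g : F2, (act g)⁻¹ * z * act g = z := fun g => by
    rw [mul_assoc, ← act_comm]; group
  induction hp with
  | nil => simp [wordValue, T0_sq]
  | singleton x =>
    have e : wordValue ({a, b} : Set F2) [x] = cond x.2 (x.1 : F2) (x.1 : F2)⁻¹ := by
      simp [wordValue]
    rw [e]
    nth_rw 1 [letter_flip x]
    calc _ = (act (cond x.2 (x.1 : F2) (x.1 : F2)⁻¹))⁻¹ * (T0 * T0) *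
          act (cond x.2 (x.1 : F2) (x.1 : F2)⁻¹) := by group
      _ = _ := by rw [T0_sq, conj]
  | cons_concat x hp ih =>
    rename_i l
    have e : wordValue ({a, b} : Set F2) (x :: (l ++ [x])) =
        cond x.2 (x.1 : F2) (x.1 : F2)⁻¹ * wordValue _ l * cond x.2 (x.1 : F2) (x.1 : F2)⁻¹ := by
      simp [wordValue, mul_assoc]
    rw [e]
    generalize hA : cond x.2 (x.1 : F2) (x.1 : F2)⁻¹ = A
    have hf : T0 * act A = (act A)⁻¹ * T0 := by rw [← hA]; exact letter_flip x
    have e2 : T0 * act (A * wordValue ({a, b} : Set F2) l * A) =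
        (act A)⁻¹ * (T0 * act (wordValue ({a, b} : Set F2) l)) * act A := by
      rw [map_mul, map_mul, ← mul_assoc, ← mul_assoc, hf]; group
    rw [e2]
    calc _ = (act A)⁻¹ * ((T0 * act (wordValue ({a, b} : Set F2) l)) *
          (T0 * act (wordValue ({a, b} : Set F2) l))) * act A := by group
      _ = _ := by rw [ih, conj]

lemma T0_inv_apply (y : ℝ) : T0⁻¹ y = y - 1 / 2 := by
  have h : T0 (y - 1 / 2) = y := by
    simp only [T0, mkT_apply]; ring
  calc T0⁻¹ y = T0⁻¹ (T0 (y - 1 / 2)) := by rw [h]
    _ = (T0⁻¹ * T0) (y - 1 / 2) := rfl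
    _ = y - 1 / 2 := by rw [inv_mul_cancel]; rfl

lemma pal_move {p : F2} (hp : IsPalindrome ({a, b} : Set F2) p) (x : ℝ) : |act p x - x| ≤ 1 := by
  obtain ⟨w, -, hw, rfl⟩ := hp
  have h := pal_sq w hw
  obtain ⟨h1, h2⟩ := move h x
  have e : act (wordValue _ w) x = (T0 * act (wordValue _ w)) x - 1 / 2 := by
    rw [← T0_inv_apply]
    change _ = (T0⁻¹ * (T0 * act (wordValue _ w))) x
    rw [inv_mul_cancel_left]
  rw [e, abs_le]
  constructor <;> linarith

lemma list_move (l : List F2) (hl : ∀ p ∈ l, IsPalindrome ({a, b} : Set F2) p) (x : ℝ) :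
    |act l.prod x - x| ≤ l.length := by
  induction l generalizing x with
  | nil => simp
  | cons p l ih =>
    have h1 := ih (fun p hp => hl p (List.mem_cons_of_mem _ hp)) x
    have h2 := pal_move (hl p List.mem_cons_self) (act l.prod x)
    rw [List.prod_cons, map_mul, List.length_cons]
    change |act p (act l.prod x) - x| ≤ _
    push_cast
    calc |act p (act l.prod x) - x| = |(act p (act l.prod x) - act l.prod x) + (act l.prod x - x)| := by
          congr 1; ring
      _ ≤ _ := abs_add_le _ _
      _ ≤ _ := by linarith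

lemma act_a (x : ℝ) : act a x = TT (x - 1 / 4) - 1 / 4 := by
  have e : act a = T0⁻¹ * T1 := by simp [act, Tk]
  rw [e]
  change T0⁻¹ (T1 x) = _
  rw [T0_inv_apply]
  simp only [T1, mkT_apply]; ring

lemma act_b (x : ℝ) : act b x = TT x - 1 / 2 := by
  have e : act b = T0⁻¹ * T2 := by simp [act, Tk]
  rw [e]
  change T0⁻¹ (T2 x) = _
  rw [T0_inv_apply]
  simp only [T2, mkT_apply]

lemma inv_val {R : ℝ ≃o ℝ} {x y : ℝ} (h : R x = y) : R⁻¹ y = x := by
  rw [← h]
  change (R⁻¹ * R) x = x
  rw [inv_mul_cancel]; rfl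

lemma TT_quarter : TT (-3 / 4) = 0 := by
  have := TT_eq (-1) (1 / 4) (by norm_num) (by norm_num)
  rw [gg, if_neg (by norm_num)] at this
  norm_num at this
  rw [neg_div]
  exact this

lemma TT_zero : TT 0 = 1 / 4 := by
  have := TT_eq 0 0 (by norm_num) (by norm_num)
  rw [gg, if_pos (by norm_num)] at this
  norm_num at this
  norm_num
  exact this

lemma TT_neg_one : TT (-1) = -3 / 4 := by
  have := TT_eq (-1) 0 (by norm_num) (by norm_num)
  rw [gg, if_pos (by norm_num)] at this
  norm_num at this
  norm_num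
  exact this

/-- a commutator that moves the origin by one -/
def c : F2 := a * b⁻¹ * a⁻¹ * b

lemma act_c_zero : act c 0 = -1 := by
  have h1 : act b 0 = -1 / 4 := by rw [act_b, TT_zero]; norm_num
  have h2 : act a (-1 / 2) = -1 / 4 := by
    rw [act_a]
    have : (-1 / 2 - 1 / 4 : ℝ) = -3 / 4 := by norm_num
    rw [this, TT_quarter]; norm_num
  have h3 : act b (-3 / 4) = -1 / 2 := by rw [act_b, TT_quarter]; norm_num
  have h4 : act a (-3 / 4) = -1 := by
    rw [act_a]
    have : (-3 / 4 - 1 / 4 : ℝ) = -1 := by norm_num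
    rw [this, TT_neg_one]; norm_num
  have e : act c 0 = act a ((act b)⁻¹ ((act a)⁻¹ (act b 0))) := by
    rw [c, map_mul, map_mul, map_mul, map_inv, map_inv]; rfl
  rw [e, h1, inv_val h2, inv_val h3, h4]

lemma act_c_pow (m : ℕ) : act (c ^ m) 0 = -m := by
  have hc : ∀ x, act c (x + 1) = act c x + 1 := fun x => DFunLike.congr_fun (act_comm c) x
  have h1 : ∀ m : ℕ, act c (-(m : ℝ)) = -(m : ℝ) - 1 := by
    intro m
    induction m with
    | zero => rw [Nat.cast_zero, neg_zero, act_c_zero]; norm_num
    | succ m ih =>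
      have h2 := hc (-((m + 1 : ℕ) : ℝ))
      have e : -((m + 1 : ℕ) : ℝ) + 1 = -(m : ℝ) := by push_cast; ring
      rw [e, ih] at h2
      push_cast at h2 ⊢
      linarith
  induction m with
  | zero => simp
  | succ m ih =>
    rw [pow_succ', map_mul]
    change act c (act (c ^ m) 0) = _
    rw [ih, h1]; push_cast; ring

lemma lower : palWidth ({a, b} : Set F2) = ⊤ := by
  rw [eq_top_iff, ← ENat.iSup_natCast]
  refine iSup_le ?_
  intro m
  refine le_trans ?_ (le_iSup (fun g => palLength ({a, b} : Set F2) g) (c ^ m))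
  refine le_iInf₂ ?_
  rintro l ⟨hl, hprod⟩
  have h := list_move l hl 0
  rw [hprod, act_c_pow, sub_zero, abs_neg, Nat.abs_cast] at h
  exact_mod_cast h

end lower

/-- **Dependence of the palindromic width on the generating set.** There are a group and two finite
generating sets such that the palindromic width is finite for the first one and infinite for the
second one. -/
theorem result : ∃ (G : Type) (_ : Group G) (X Y : Set G), X.Finite ∧ Y.Finite ∧
    Subgroup.closure X = ⊤ ∧ Subgroup.closure Y = ⊤ ∧ palWidth X < ⊤ ∧ palWidth Y = ⊤ :=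
  ⟨F2, inferInstance, {a, b, a * b}, {a, b}, by simp, by simp, closure_abc, closure_ab,
    lt_of_le_of_lt upper (by decide), lower⟩

end Pool.Agent.Results.MP_8bc403_al.GenDepend
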